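import Pool.Agent.Helper23.AC.Tau
import Pool.Agent.Helper23.AC.UBall

/-! AC-2: flat averages in the modified Tsirelson space. -/

set_option autoImplicit false

namespace Pool.Agent.Helper23.AC

open Finset


theorem av_prA_eq (t β : Fn) : prA t β = ∑ n ∈ β.support, |t n| * |β n| := by
  rw [prA_comm]
  unfold prA
  exact Finset.sum_congr rfl fun n _ => mul_comm _ _

theorem av_prA_nonneg (t β : Fn) : 0 ≤ prA t β :=
  Finset.sum_nonneg fun _ _ => mul_nonneg (abs_nonneg _) (abs_nonneg _)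

theorem av_prA_zero_of {t β : Fn} (h : ∀ n ∈ t.support, β n = 0) : prA t β = 0 := by
  unfold prA
  apply Finset.sum_eq_zero
  intro n hn
  rw [h n hn, abs_zero, mul_zero]

/-- on a common support set -/
theorem av_prA_on (t β : Fn) {s : Finset ℕ} (h : β.support ⊆ s) :
    prA t β = ∑ n ∈ s, |t n| * |β n| := by
  rw [av_prA_eq]
  apply Finset.sum_subset h
  intro n _ hn
  rw [Finsupp.notMem_support_iff.1 hn, abs_zero, mul_zero]

theorem av_prA_add (t β γ : Fn) : prA t (β + γ) ≤ prA t β + prA t γ := by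
  unfold prA
  rw [← Finset.sum_add_distrib]
  apply Finset.sum_le_sum
  intro n _
  rw [← mul_add]
  exact mul_le_mul_of_nonneg_left (abs_add_le _ _) (abs_nonneg _)

theorem av_prA_smul (t β : Fn) (a : ℝ) : prA t (a • β) = |a| * prA t β := by
  unfold prA
  rw [Finset.mul_sum]
  apply Finset.sum_congr rfl
  intro n _
  rw [Finsupp.smul_apply, smul_eq_mul, abs_mul]
  ring

theorem av_prA_zero (t : Fn) : prA t 0 = 0 := by
  unfold prA; simp

theorem av_prA_sum {ι : Type*} (t : Fn) (s : Finset ι) (β : ι → Fn) :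
    prA t (∑ i ∈ s, β i) ≤ ∑ i ∈ s, prA t (β i) := by
  classical
  induction s using Finset.induction_on with
  | empty => simp [av_prA_zero]
  | insert a s ha ih =>
    rw [Finset.sum_insert ha, Finset.sum_insert ha]
    exact (av_prA_add _ _ _).trans (by linarith)

theorem av_sum_apply {ι : Type*} (s : Finset ι) (t : ι → Fn) (n : ℕ) :
    (∑ i ∈ s, t i) n = ∑ i ∈ s, t i n := by
  rw [Finsupp.finsetSum_apply]

theorem av_prA_node {ι : Type*} [Fintype ι] (t : ι → Fn) (ht : ∀ i, TM (t i)) (β : Fn) :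
    prA ((1 / 2 : ℝ) • ∑ i, t i) β = (1 / 2) * ∑ i, prA (t i) β := by
  rw [av_prA_eq]
  simp_rw [av_prA_eq (t _) β]
  rw [Finset.sum_comm, Finset.mul_sum]
  apply Finset.sum_congr rfl
  intro n _
  have h1 : |((1 / 2 : ℝ) • ∑ i, t i) n| = (1 / 2) * ∑ i, |t i n| := by
    rw [Finsupp.smul_apply, smul_eq_mul, av_sum_apply, abs_mul, abs_of_pos (by norm_num : (0:ℝ) < 1 / 2)]
    congr 1
    rw [abs_of_nonneg (Finset.sum_nonneg fun i _ => (tm_bounds (ht i) n).1)]
    exact Finset.sum_congr rfl fun i _ => (abs_of_nonneg (tm_bounds (ht i) n).1).symm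
  rw [h1, ← Finset.sum_mul]
  ring

/-- splitting of an element of the norming set that meets `[0, M]` -/
theorem av_split {t : Fn} (ht : TM t) {m₀ M : ℕ} (hm : m₀ ∈ t.support) (hM : m₀ ≤ M) (β : Fn)
    (hβ : ∀ n ∈ β.support, M < n) :
    ∃ (d : ℕ) (_ : d ≤ M) (p : Fin d → Fn), (∀ l, TM (p l)) ∧
      (∀ i j, i ≠ j → Disjoint (p i).support (p j).support) ∧
      (∀ l, (p l).support ⊆ t.support) ∧ prA t β ≤ (1 / 2) * ∑ l, prA (p l) β := by
  cases ht with
  | leaf i =>
    refine ⟨0, Nat.zero_le _, fun l => 0, fun l => l.elim0, fun i => i.elim0, fun l => l.elim0, ?_⟩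
    rw [av_prA_zero_of]
    · simp
    · intro n hn
      by_contra hne
      have h1 := hβ n (Finsupp.mem_support_iff.2 hne)
      have h2 : n = i := by
        simpa using Finsupp.support_single_subset hn
      have h3 : m₀ = i := by
        simpa using Finsupp.support_single_subset hm
      omega
  | node d t ht hd hdisj =>
    have h0 : ∀ l, ∀ n ∈ (t l).support, n ∈ ((1 / 2 : ℝ) • ∑ j, t j).support := by
      intro l n hn
      rw [Finsupp.mem_support_iff] at hn ⊢
      rw [Finsupp.smul_apply, smul_eq_mul, av_sum_apply]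
      have h1 : 0 < t l n := lt_of_le_of_ne (tm_bounds (ht l) n).1 (Ne.symm hn)
      have h2 : t l n ≤ ∑ i, t i n :=
        Finset.single_le_sum (f := fun i => t i n) (fun i _ => (tm_bounds (ht i) n).1)
          (Finset.mem_univ l)
      have h3 : 0 < (1 / 2 : ℝ) * ∑ i, t i n := by linarith
      exact h3.ne'
    have h4 : ∃ l, m₀ ∈ (t l).support := by
      by_contra hcon
      push Not at hcon
      rw [Finsupp.mem_support_iff] at hm
      apply hm
      rw [Finsupp.smul_apply, smul_eq_mul, av_sum_apply,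
        Finset.sum_eq_zero (fun i _ => Finsupp.notMem_support_iff.1 (hcon i)), mul_zero]
    obtain ⟨l, hl⟩ := h4
    exact ⟨d, (hd l m₀ hl).trans hM, t, ht, hdisj, h0, (av_prA_node t ht β).le⟩

/-- the inductive statement -/
def AvP (A B : ℕ → ℕ) (k D : ℕ) (η : ℝ) (s₀ : ℕ) (F : Finset ℕ) (b : ℕ → ℝ) : Prop :=
  (∀ s ∈ F, s₀ ≤ s ∧ 0 < b s) ∧ ∑ s ∈ F, b s = 1 ∧
    UB (2 ^ k) (∑ s ∈ F, Finsupp.single (A s) 1) ∧
    ∀ (ι : Type) [Fintype ι] (t : ι → Fn), Fintype.card ι ≤ D → (∀ i, TM (t i)) →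
      (∀ i j, i ≠ j → Disjoint (t i).support (t j).support) →
      ∀ ω : ℕ → Fn, (∀ s ∈ F, (∀ n ∈ (ω s).support, A s ≤ n ∧ n ≤ B s) ∧ tau (ω s) ≤ 1) →
        ∑ i, prA (t i) (∑ s ∈ F, b s • ω s) ≤ 2 / 2 ^ k + 2 * η

section

variable {A B : ℕ → ℕ} (hAB : ∀ s, A s ≤ B s) (hsep : ∀ s, B s < A (s + 1))

include hAB hsep

theorem av_strict : StrictMono A := strictMono_nat_of_lt_succ fun s => (hAB s).trans_lt (hsep s)

theorem av_le (s : ℕ) : s ≤ A s := (av_strict hAB hsep).le_apply

theorem av_sep {s s' : ℕ} (h : s < s') : B s < A s' :=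
  (hsep s).trans_le ((av_strict hAB hsep).monotone h)

theorem av_Bmono {s s' : ℕ} (h : s ≤ s') : B s ≤ B s' := by
  rcases h.eq_or_lt with rfl | h
  · exact le_rfl
  · exact (av_sep hAB hsep h).le.trans (hAB s')

theorem av_base (D : ℕ) (η : ℝ) (hη : 0 < η) (s₀ : ℕ) :
    ∃ F b, AvP A B 0 D η s₀ F b := by
  classical
  set s := max s₀ D with hs
  refine ⟨{s}, fun _ => 1, ?_, by simp, ?_, ?_⟩
  · intro s' hs'
    rw [Finset.mem_singleton] at hs'
    subst hs'
    exact ⟨le_max_left _ _, one_pos⟩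
  · simpa using ub_single (a := 1) (A s) (by simp)
  · intro ι _ t hcard ht hdisj ω hω
    obtain ⟨hsupp, htau⟩ := hω s (Finset.mem_singleton_self s)
    rw [Finset.sum_singleton, one_smul]
    let E : Set ℕ := Set.Icc (A s) (B s)
    let e : Fin (Fintype.card ι) ≃ ι := (Fintype.equivFin ι).symm
    have hres : ∀ i n, n ∈ E → res E (t i) n = t i n := by
      intro i n hn
      unfold res
      simp [hn]
    have hres0 : ∀ i n, n ∉ E → res E (t i) n = 0 := by
      intro i n hn
      unfold res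
      simp [hn]
    have hressupp : ∀ i, (res E (t i)).support ⊆ (t i).support := by
      intro i n hn
      rw [Finsupp.mem_support_iff] at hn ⊢
      by_cases h : n ∈ E
      · rwa [hres i n h] at hn
      · exact absurd (hres0 i n h) hn
    have h1 : ∀ i, prA (t i) (ω s) = prA (res E (t i)) (ω s) := by
      intro i
      rw [av_prA_eq, av_prA_eq]
      apply Finset.sum_congr rfl
      intro n hn
      rw [hres i n (hsupp n hn)]
    have h2 : TM ((1 / 2 : ℝ) • ∑ j, res E (t (e j))) := by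
      apply TM.node _ _ (fun j => tm_res (ht _) E)
      · intro j n hn
        have hnE : n ∈ E := by
          by_contra h
          exact (Finsupp.mem_support_iff.1 hn) (hres0 _ n h)
        have h3 : s ≤ n := (av_le hAB hsep s).trans hnE.1
        exact hcard.trans ((le_max_right _ _).trans h3)
      · intro i j hij
        exact (hdisj _ _ (fun h => hij (e.injective h))).mono (hressupp _) (hressupp _)
    have h3 := prA_le_tau h2 (ω s)
    rw [av_prA_node _ (fun j => tm_res (ht _) E)] at h3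
    rw [Equiv.sum_comp e (fun i => prA (res E (t i)) (ω s))] at h3
    simp_rw [h1]
    have h4 : ∑ i, prA (res E (t i)) (ω s) ≤ 2 := by linarith
    rw [pow_zero, div_one]
    linarith

omit hAB hsep in
theorem av_late {k D' : ℕ} {η : ℝ} {s' : ℕ} {F : Finset ℕ} {b : ℕ → ℝ}
    (hF : AvP A B k D' η s' F b) (M D : ℕ) (hD : D * (1 + M) ≤ D') (hM : ∀ s ∈ F, M < A s)
    (ι : Type) [Fintype ι] (t : ι → Fn) (hcard : Fintype.card ι ≤ D) (ht : ∀ i, TM (t i))
    (hdisj : ∀ i j, i ≠ j → Disjoint (t i).support (t j).support)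
    (ω : ℕ → Fn) (hω : ∀ s ∈ F, (∀ n ∈ (ω s).support, A s ≤ n ∧ n ≤ B s) ∧ tau (ω s) ≤ 1)
    (L : Finset ι) (hL : ∀ j ∈ L, ∃ m ∈ (t j).support, m ≤ M) :
    ∑ j ∈ L, prA (t j) (∑ s ∈ F, b s • ω s) ≤ 1 / 2 ^ k + η := by
  classical
  set y : Fn := ∑ s ∈ F, b s • ω s with hy
  have hysupp : ∀ n ∈ y.support, M < n := by
    intro n hn
    rw [Finsupp.mem_support_iff, hy, av_sum_apply] at hn
    obtain ⟨s, hs, hsn⟩ := Finset.exists_ne_zero_of_sum_ne_zero hn
    rw [Finsupp.smul_apply, smul_eq_mul] at hsn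
    have h1 : n ∈ (ω s).support := Finsupp.mem_support_iff.2 (right_ne_zero_of_mul hsn)
    exact (hM s hs).trans_le (((hω s hs).1 n h1).1)
  have h1 : ∀ j : L, ∃ (d : ℕ) (_ : d ≤ M) (p : Fin d → Fn), (∀ l, TM (p l)) ∧
      (∀ i j, i ≠ j → Disjoint (p i).support (p j).support) ∧
      (∀ l, (p l).support ⊆ (t j).support) ∧ prA (t j) y ≤ (1 / 2) * ∑ l, prA (p l) y := by
    intro j
    obtain ⟨m, hm, hmM⟩ := hL j j.2
    exact av_split (ht j) hm hmM y hysupp
  choose d hd p hp1 hp2 hp3 hp4 using h1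
  have hcard' : Fintype.card (Σ j : L, Fin (d j)) ≤ D' := by
    rw [Fintype.card_sigma]
    calc ∑ j : L, Fintype.card (Fin (d j)) ≤ ∑ _j : L, (1 + M) := by
          apply Finset.sum_le_sum
          intro j _
          rw [Fintype.card_fin]
          exact (hd j).trans (by omega)
      _ = L.card * (1 + M) := by simp
      _ ≤ D * (1 + M) := Nat.mul_le_mul_right _ ((Finset.card_le_univ L).trans hcard)
      _ ≤ D' := hD
  have h2 := hF.2.2.2 (Σ j : L, Fin (d j)) (fun q => p q.1 q.2) hcard' (fun q => hp1 _ _) (by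
    rintro ⟨i, l⟩ ⟨j, l'⟩ hne
    by_cases hij : i = j
    · subst hij
      apply hp2
      intro h
      apply hne
      have h' : l = l' := h
      rw [h']
    · exact (hdisj i j (fun h => hij (Subtype.ext h))).mono (hp3 i l) (hp3 j l')) ω hω
  rw [← hy, Fintype.sum_sigma] at h2
  calc ∑ j ∈ L, prA (t j) y = ∑ j : L, prA (t j) y := (Finset.sum_coe_sort L _).symm
    _ ≤ ∑ j : L, (1 / 2) * ∑ l, prA (p j l) y := Finset.sum_le_sum fun j _ => hp4 j
    _ = (1 / 2) * ∑ j : L, ∑ l, prA (p j l) y := by rw [Finset.mul_sum]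
    _ ≤ (1 / 2) * (2 / 2 ^ k + 2 * η) := by
        apply mul_le_mul_of_nonneg_left _ (by norm_num)
        exact h2
    _ = 1 / 2 ^ k + η := by ring

theorem av_step (k : ℕ)
    (IH : ∀ (D : ℕ) (η : ℝ) (s₀ : ℕ), 0 < η → ∃ F b, AvP A B k D η s₀ F b)
    (D : ℕ) (η : ℝ) (hη : 0 < η) (s₀ : ℕ) : ∃ F b, AvP A B (k + 1) D η s₀ F b := by
  classical
  obtain ⟨n, hn1, hnD⟩ : ∃ n : ℕ, 1 ≤ n ∧ (D : ℝ) ≤ η * n := by
    refine ⟨⌈(D : ℝ) / η⌉₊ + 1, by omega, ?_⟩
    have h1 := Nat.le_ceil ((D : ℝ) / η)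
    rw [div_le_iff₀ hη] at h1
    push_cast
    nlinarith
  have hn0 : (0 : ℝ) < n := by exact_mod_cast hn1
  set s1 := max s₀ n with hs1
  have IH' : ∀ (D' s' : ℕ), ∃ q : Finset ℕ × (ℕ → ℝ), AvP A B k D' η s' q.1 q.2 := by
    intro D' s'
    obtain ⟨F, b, h⟩ := IH D' η s' hη
    exact ⟨(F, b), h⟩
  choose G hG using IH'
  let st : ℕ → Finset ℕ × (ℕ → ℝ) := fun i =>
    Nat.rec (G D s1) (fun _ q => G (D * (1 + B (q.1.sup id))) (max s1 (q.1.sup id + 1))) i
  let F : ℕ → Finset ℕ := fun i => (st i).1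
  let b : ℕ → ℕ → ℝ := fun i => (st i).2
  let m : ℕ → ℕ := fun i => (F i).sup id
  have hA0 : AvP A B k D η s1 (F 0) (b 0) := hG D s1
  have hA1 : ∀ i, AvP A B k (D * (1 + B (m i))) η (max s1 (m i + 1)) (F (i + 1)) (b (i + 1)) :=
    fun i => hG _ _
  have hsum : ∀ i, ∑ s ∈ F i, b i s = 1 := by
    intro i
    cases i with
    | zero => exact hA0.2.1
    | succ i => exact (hA1 i).2.1
  have hpos : ∀ i, ∀ s ∈ F i, 0 < b i s := by
    intro i
    cases i with
    | zero => exact fun s hs => (hA0.1 s hs).2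
    | succ i => exact fun s hs => ((hA1 i).1 s hs).2
  have hge : ∀ i, ∀ s ∈ F i, s1 ≤ s := by
    intro i
    cases i with
    | zero => exact fun s hs => (hA0.1 s hs).1
    | succ i => exact fun s hs => (le_max_left _ _).trans ((hA1 i).1 s hs).1
  have hub : ∀ i, UB (2 ^ k) (∑ s ∈ F i, Finsupp.single (A s) 1) := by
    intro i
    cases i with
    | zero => exact hA0.2.2.1
    | succ i => exact (hA1 i).2.2.1
  have hlt : ∀ i, ∀ s ∈ F (i + 1), m i < s := by
    intro i s hs
    have := (le_max_right _ _).trans ((hA1 i).1 s hs).1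
    omega
  have hne : ∀ i, (F i).Nonempty := by
    intro i
    by_contra h
    rw [Finset.not_nonempty_iff_eq_empty] at h
    have h1 := hsum i
    rw [h, Finset.sum_empty] at h1
    exact zero_ne_one h1
  have hmem : ∀ i, ∀ s ∈ F i, s ≤ m i := fun i s hs => Finset.le_sup (f := id) hs
  have hmono : StrictMono m := by
    apply strictMono_nat_of_lt_succ
    intro i
    obtain ⟨s, hs⟩ := hne (i + 1)
    exact (hlt i s hs).trans_le (hmem (i + 1) s hs)
  have hcross : ∀ i j, i < j → ∀ s ∈ F j, m i < s := by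
    intro i j hij s hs
    obtain ⟨j', rfl⟩ : ∃ j', j = j' + 1 := ⟨j - 1, by omega⟩
    exact (hmono.monotone (by omega : i ≤ j')).trans_lt (hlt j' s hs)
  have hFdisj : ∀ i j, i ≠ j → Disjoint (F i) (F j) := by
    have key : ∀ i j, i < j → Disjoint (F i) (F j) := by
      intro i j hij
      rw [Finset.disjoint_left]
      intro s hs hs'
      have h1 := hmem i s hs
      have h2 := hcross i j hij s hs'
      omega
    intro i j hij
    rcases lt_or_gt_of_ne hij with h | h
    · exact key i j h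
    · exact (key j i h).symm
  have hpd : ((range n : Finset ℕ) : Set ℕ).PairwiseDisjoint F := fun i _ j _ hij => hFdisj i j hij
  let bb' : ℕ → ℝ := fun s => ∑ i ∈ range n, if s ∈ F i then (1 / n : ℝ) * b i s else 0
  have hbb : ∀ i ∈ range n, ∀ s ∈ F i, bb' s = (1 / n : ℝ) * b i s := by
    intro i hi s hs
    show ∑ i ∈ range n, (if s ∈ F i then (1 / n : ℝ) * b i s else 0) = _
    rw [Finset.sum_eq_single_of_mem i hi, if_pos hs]
    intro j _ hj
    rw [if_neg]
    intro hs'
    exact Finset.disjoint_left.1 (hFdisj i j hj.symm) hs hs'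
  refine ⟨(range n).biUnion F, bb', ?_, ?_, ?_, ?_⟩
  · intro s hs
    obtain ⟨i, hi, hsi⟩ := Finset.mem_biUnion.1 hs
    refine ⟨(le_max_left _ _).trans (hge i s hsi), ?_⟩
    rw [hbb i hi s hsi]
    have := hpos i s hsi
    positivity
  · rw [Finset.sum_biUnion hpd]
    have h1 : ∀ i ∈ range n, ∑ s ∈ F i, bb' s = 1 / n := by
      intro i hi
      rw [Finset.sum_congr rfl (hbb i hi), ← Finset.mul_sum, hsum, mul_one]
    rw [Finset.sum_congr rfl h1, Finset.sum_const, Finset.card_range, nsmul_eq_mul]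
    field_simp
  · rw [Finset.sum_biUnion hpd, Finset.sum_range, pow_succ, mul_comm]
    have hsup : ∀ i, ∀ p ∈ (∑ s ∈ F i, Finsupp.single (A s) (1 : ℝ)).support,
        ∃ s ∈ F i, p = A s := by
      intro i p hp
      rw [Finsupp.mem_support_iff, av_sum_apply] at hp
      obtain ⟨s, hs, hsp⟩ := Finset.exists_ne_zero_of_sum_ne_zero hp
      refine ⟨s, hs, ?_⟩
      by_contra hcon
      apply hsp
      rw [Finsupp.single_apply, if_neg (Ne.symm hcon)]
    apply ub_half
    · intro j p hp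
      obtain ⟨s, hs, rfl⟩ := hsup j p hp
      exact (le_max_right _ _).trans ((hge j s hs).trans (av_le hAB hsep s))
    · intro i j hij
      rw [Finset.disjoint_left]
      intro p hp hp'
      obtain ⟨s, hs, rfl⟩ := hsup i p hp
      obtain ⟨s', hs', he⟩ := hsup j _ hp'
      have h1 : s = s' := (av_strict hAB hsep).injective he
      subst h1
      exact Finset.disjoint_left.1 (hFdisj i j (fun h => hij (Fin.ext h))) hs hs'
    · intro j
      exact hub j
    · positivity
  · intro ι _ t hcard ht hdisj ω hω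
    have hω' : ∀ i ∈ range n, ∀ s ∈ F i,
        (∀ p ∈ (ω s).support, A s ≤ p ∧ p ≤ B s) ∧ tau (ω s) ≤ 1 := fun i hi s hs =>
      hω s (Finset.mem_biUnion.2 ⟨i, hi, hs⟩)
    let y : ℕ → Fn := fun i => ∑ s ∈ F i, b i s • ω s
    have hy : ∑ s ∈ (range n).biUnion F, bb' s • ω s = ∑ i ∈ range n, (1 / n : ℝ) • y i := by
      rw [Finset.sum_biUnion hpd]
      apply Finset.sum_congr rfl
      intro i hi
      show _ = (1 / n : ℝ) • ∑ s ∈ F i, b i s • ω s
      rw [Finset.smul_sum]
      apply Finset.sum_congr rfl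
      intro s hs
      rw [hbb i hi s hs, smul_smul]
    let Mt : ι → ℕ → Prop := fun j i => ∃ p ∈ (t j).support, ∃ s ∈ F i, A s ≤ p ∧ p ≤ B s
    let Fi : ι → ℕ → Prop := fun j i => Mt j i ∧ ∀ i' < i, ¬ Mt j i'
    let La : ι → ℕ → Prop := fun j i => ∃ i' < i, Mt j i'
    have hzero : ∀ i ∈ range n, ∀ j, ¬ Mt j i → prA (t j) (y i) = 0 := by
      intro i hi j hj
      apply av_prA_zero_of
      intro p hp
      show (∑ s ∈ F i, b i s • ω s) p = 0
      rw [av_sum_apply]
      apply Finset.sum_eq_zero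
      intro s hs
      rw [Finsupp.smul_apply, smul_eq_mul]
      by_contra hne
      have h1 : p ∈ (ω s).support := Finsupp.mem_support_iff.2 (right_ne_zero_of_mul hne)
      exact hj ⟨p, hp, s, hs, (hω' i hi s hs).1 p h1⟩
    have hone : ∀ i ∈ range n, ∀ j, prA (t j) (y i) ≤ 1 := by
      intro i hi j
      refine (av_prA_sum _ _ _).trans ?_
      rw [← hsum i]
      apply Finset.sum_le_sum
      intro s hs
      rw [av_prA_smul, abs_of_pos (hpos i s hs)]
      have h1 := (prA_le_tau (ht j) (ω s)).trans (hω' i hi s hs).2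
      have h2 := (hpos i s hs).le
      nlinarith
    have hlate : ∀ i ∈ range n, ∑ j ∈ univ.filter (fun j => La j i), prA (t j) (y i) ≤
        1 / 2 ^ k + η := by
      intro i hi
      cases i with
      | zero =>
        rw [Finset.sum_eq_zero]
        · positivity
        · intro j hj
          obtain ⟨-, i', hi', -⟩ := Finset.mem_filter.1 hj
          omega
      | succ i =>
        refine av_late (hA1 i) (B (m i)) D le_rfl
          (fun s hs => av_sep hAB hsep (hlt i s hs)) ι t hcard ht hdisj ω (hω' _ hi) _ ?_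
        intro j hj
        obtain ⟨-, i', hi', p, hp, s, hs, -, hps⟩ := Finset.mem_filter.1 hj
        refine ⟨p, hp, hps.trans (av_Bmono hAB hsep ?_)⟩
        exact (hmem i' s hs).trans (hmono.monotone (by omega))
    have hrow : ∀ i ∈ range n, ∑ j, prA (t j) (y i) ≤
        (∑ j, if Fi j i then (1 : ℝ) else 0) + (1 / 2 ^ k + η) := by
      intro i hi
      rw [← Finset.sum_filter_add_sum_filter_not univ (fun j => La j i) (fun j => prA (t j) (y i))]
      have h1 := hlate i hi
      have h2 : ∑ j ∈ univ.filter (fun j => ¬ La j i), prA (t j) (y i) ≤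
          ∑ j, if Fi j i then (1 : ℝ) else 0 := by
        calc ∑ j ∈ univ.filter (fun j => ¬ La j i), prA (t j) (y i)
            ≤ ∑ j ∈ univ.filter (fun j => ¬ La j i), (if Fi j i then (1 : ℝ) else 0) := by
              apply Finset.sum_le_sum
              intro j hj
              have hj' := (Finset.mem_filter.1 hj).2
              by_cases hM : Mt j i
              · have hF : Fi j i := ⟨hM, fun i' hi' hM' => hj' ⟨i', hi', hM'⟩⟩
                rw [if_pos hF]
                exact hone i hi j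
              · rw [hzero i hi j hM]
                split_ifs <;> norm_num
          _ ≤ _ := by
              apply Finset.sum_le_sum_of_subset_of_nonneg (Finset.filter_subset _ _)
              intro j _ _
              split_ifs <;> norm_num
      linarith
    have hcount : ∑ i ∈ range n, ∑ j, (if Fi j i then (1 : ℝ) else 0) ≤ D := by
      rw [Finset.sum_comm]
      calc ∑ j, ∑ i ∈ range n, (if Fi j i then (1 : ℝ) else 0) ≤ ∑ _j : ι, (1 : ℝ) := by
            apply Finset.sum_le_sum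
            intro j _
            rw [← Finset.sum_filter, Finset.sum_const, nsmul_eq_mul, mul_one]
            have h1 : ((range n).filter (fun i => Fi j i)).card ≤ 1 := by
              rw [Finset.card_le_one]
              intro i hi i' hi'
              obtain ⟨-, hi1, hi2⟩ := Finset.mem_filter.1 hi
              obtain ⟨-, hi1', hi2'⟩ := Finset.mem_filter.1 hi'
              rcases lt_trichotomy i i' with h | h | h
              · exact absurd hi1 (hi2' i h)
              · exact h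
              · exact absurd hi1' (hi2 i' h)
            exact_mod_cast h1
        _ = Fintype.card ι := by simp
        _ ≤ D := by exact_mod_cast hcard
    rw [hy]
    have hfin : ∑ j, prA (t j) (∑ i ∈ range n, (1 / n : ℝ) • y i) ≤
        (1 / n : ℝ) * ∑ i ∈ range n, ∑ j, prA (t j) (y i) := by
      rw [Finset.sum_comm, Finset.mul_sum]
      apply Finset.sum_le_sum
      intro j _
      refine (av_prA_sum _ _ _).trans ?_
      rw [Finset.mul_sum]
      apply Finset.sum_le_sum
      intro i _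
      rw [av_prA_smul, abs_of_pos (by positivity)]
    refine hfin.trans ?_
    have h3 : ∑ i ∈ range n, ∑ j, prA (t j) (y i) ≤ D + n * (1 / 2 ^ k + η) := by
      calc ∑ i ∈ range n, ∑ j, prA (t j) (y i)
          ≤ ∑ i ∈ range n, ((∑ j, if Fi j i then (1 : ℝ) else 0) + (1 / 2 ^ k + η)) :=
            Finset.sum_le_sum hrow
        _ = (∑ i ∈ range n, ∑ j, if Fi j i then (1 : ℝ) else 0) + n * (1 / 2 ^ k + η) := by
            rw [Finset.sum_add_distrib, Finset.sum_const, Finset.card_range, nsmul_eq_mul]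
        _ ≤ _ := by linarith
    calc (1 / n : ℝ) * ∑ i ∈ range n, ∑ j, prA (t j) (y i)
        ≤ (1 / n : ℝ) * (D + n * (1 / 2 ^ k + η)) :=
          mul_le_mul_of_nonneg_left h3 (by positivity)
      _ ≤ (1 / n : ℝ) * (η * n + n * (1 / 2 ^ k + η)) :=
          mul_le_mul_of_nonneg_left (by linarith) (by positivity)
      _ = 2 / 2 ^ (k + 1) + 2 * η := by
          rw [pow_succ]
          field_simp
          ring

end

theorem exists_average (k : ℕ) (A B : ℕ → ℕ) (hAB : ∀ s, A s ≤ B s)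
    (hsep : ∀ s, B s < A (s + 1)) (s₀ : ℕ) :
    ∃ (F : Finset ℕ) (b : ℕ → ℝ), (∀ s ∈ F, s₀ ≤ s ∧ 0 < b s) ∧ ∑ s ∈ F, b s = 1 ∧
      UB (2 ^ k) (∑ s ∈ F, Finsupp.single (A s) 1) ∧
      ∀ ω : ℕ → Fn, (∀ s ∈ F, (∀ n ∈ (ω s).support, A s ≤ n ∧ n ≤ B s) ∧ tau (ω s) ≤ 1) →
        tau (∑ s ∈ F, b s • ω s) ≤ 4 / 2 ^ k := by
  have key : ∀ (D : ℕ) (η : ℝ) (s₀ : ℕ), 0 < η → ∃ F b, AvP A B k D η s₀ F b := by
    induction k with
    | zero => exact fun D η s₀ hη => av_base hAB hsep D η hη s₀
    | succ k ih => exact fun D η s₀ hη => av_step hAB hsep k ih D η hη s₀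
  obtain ⟨F, b, h1, h2, h3, h4⟩ := key 1 (1 / 2 ^ k) s₀ (by positivity)
  refine ⟨F, b, h1, h2, h3, fun ω hω => tau_le fun t ht => ?_⟩
  have h5 := h4 Unit (fun _ => t) (by simp) (fun _ => ht)
    (fun i j hij => absurd (Subsingleton.elim i j) hij) ω hω
  rw [Fintype.sum_unique] at h5
  refine h5.trans (le_of_eq ?_)
  ring

end Pool.Agent.Helper23.AC
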